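import Pool.Agent.Zk39.Tr.Rf
import Pool.Agent.N733.TG.M
import Pool.Agent.N790.CM.F

/-!
# The conjectural measure for the logarithms of values of rational functions at values of arithmetic functions and at
# integers near multiples of Carmichael's function

Let `g_1, …, g_K` be rational functions with rational coefficients, multiplicatively independent modulo constants (for
instance `x, x + 1, …, x + K - 1`), and `θ = π` or `θ = log q`, `q ≠ 1` a positive rational number. `Measured g θ d C c 𝓗 n`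
(see `Pool/Agent/Zk39/Tr/Rf.lean`), `n` an `m`-tuple of natural numbers with the maximum `M`, says that

* `|P (l, θ)| ≥ (M H) ^ (-C)` for ALL heights `2 ≤ H ≤ exp (exp (M ^ c))`, ALL logarithms `l` of the `m K` numbers `g_a (n_v)`
  with `|Im l| ≤ H` and all nonzero integer polynomials `P` of total degree at most `d` and height at most `H`,
* and `|P (l, θ)| ≥ H ^ (-C)` for all logarithms and polynomials in this range for arbitrarily large `H` in `𝓗`.

**Theorem.** For all `m ≥ 1`, `d`, `g` and `θ` there are a natural number `C` and `0 < c ≤ 1` such that: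

1. let `F_1, …, F_m` be multiplicative functions of at most polynomial growth with values at most `M p` at the large primes
  and injective there, for instance Euler's function or the sum of the divisors. For every `U`, all large `N` and every
  unbounded set `𝓗` of heights the tuple `(F_1 (n_1), …, F_m (n_m))` is measured for all but `N ^ m / (log N) ^ U` of the tuples
  `n` in `[1, N] ^ m`;
2. let `B ≥ 1`, `B (m - c) < m`. There is `η > 0` such that for all `T` and `F_1, …, F_m` which take each positive value at most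
  `T` times at the primes, for instance `p - 1`, for every `U`, all large `N` and every unbounded `𝓗`, for all but
  `N ^ m / (log N) ^ U` of the tuples `n` in `[1, N] ^ m` the following is true for ALL tuples `w` with `1 ≤ w_i ≤ N ^ B` such that
  `F_i (p)` divides `w_i` for all primes `p > exp (√(log N))` which divide `n_i` exactly once, for instance all multiples `w_i` of
  Carmichael's function `λ (n_i)`: the tuples `(|a_i w_i + b_i|)` are measured for all integers `a_i ≠ 0`, `b_i` with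
  `|a_i|, |b_i| ≤ w_j ^ η` for some `j`.

The starting result `MultiplicativeValues` of this problem is the case `K = 1`, `g_1 = x` of part 1, essentially; for `K > 1`
the numbers `g_a (n_v)` are not independent, and the tuples of part 2 are not values of one function.

Proof. The count of the hand-in `RationalFunctionValues` in short boxes (its exceptions in boxes of side `X` are
`O (X ^ (m - c))`), and the starting theorems on tuples of values of arithmetic functions (`Pool/Agent/N733/TG`, helper733)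
and common multiples (`Pool/Agent/N790/CM`, helper790).
-/

set_option autoImplicit false

namespace Pool.Agent.Results.MP_3cf473_nt.ArithmeticTuples

open Pool.Agent.Zk39.PV Pool.Agent.Zk39.Tr Finset
open Pool.Agent.N733.TG (LM lm_totient lm_sigma)
open Pool.Agent.N790.CM (FewTimes Carries fewTimes_pred carries_carmichael)

lemma fin_nat {m T : ℕ} (p : (Fin m → ℕ) → Prop) : {n : Fin m → ℕ | (∀ v, n v ≤ T) ∧ p n}.Finite := by
  refine ((Finset.finite_toSet (Fintype.piFinset (fun _ : Fin m => Finset.range (T + 1))))).subset fun n hn => ?_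
  rw [Finset.mem_coe, Fintype.mem_piFinset]
  exact fun i => Finset.mem_range.2 (Nat.lt_succ_of_le (hn.1 i))

/-- the count of integer vectors -/
lemma signed {m : ℕ} (p : (Fin m → ℕ) → Prop) (X : ℕ) :
    {q : Fin m → ℤ | (∀ i, |q i| ≤ (X : ℤ)) ∧ q ∈ {q : Fin m → ℤ | p fun i => (q i).natAbs}}.ncard ≤
      2 ^ m * {n : Fin m → ℕ | (∀ v, n v ≤ X) ∧ p n}.ncard := by
  obtain ⟨φ, hφ⟩ : ∃ φ : (Fin m → ℤ) → (Fin m → Bool) × (Fin m → ℕ),
    φ = fun q => (fun i => decide (0 ≤ q i), fun i => (q i).natAbs) := ⟨_, rfl⟩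
  have hinj : Function.Injective φ := by
    intro q q' h
    rw [hφ] at h
    simp only [Prod.mk.injEq] at h
    obtain ⟨h1, h2⟩ := h
    funext i
    have h3 : (0 ≤ q i) ↔ (0 ≤ q' i) := decide_eq_decide.1 (congrFun h1 i)
    have h4 : (q i).natAbs = (q' i).natAbs := congrFun h2 i
    omega
  have hmaps : Set.MapsTo φ {q : Fin m → ℤ | (∀ i, |q i| ≤ (X : ℤ)) ∧ q ∈ {q : Fin m → ℤ | p fun i => (q i).natAbs}}
      ((Set.univ : Set (Fin m → Bool)) ×ˢ {n : Fin m → ℕ | (∀ v, n v ≤ X) ∧ p n}) := by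
    rintro q ⟨h1, h2⟩
    rw [hφ]
    refine ⟨Set.mem_univ _, fun i => ?_, h2⟩
    have h3 := h1 i
    rw [Int.abs_eq_natAbs] at h3
    exact_mod_cast h3
  have h1 := Set.ncard_le_ncard_of_injOn φ hmaps hinj.injOn (Set.finite_univ.prod (fin_nat p))
  rw [Set.ncard_prod, Set.ncard_univ, Nat.card_eq_fintype_card, Fintype.card_fun, Fintype.card_bool,
    Fintype.card_fin] at h1
  exact h1

/-- **Theorem.** Let `g_1, …, g_K` in `ℚ(x)` be multiplicatively independent modulo constants, `θ = π` or `θ = log q` with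
`q ≠ 1` a positive rational number, `m ≥ 1` and `d` natural numbers. There are `C ≥ 1` and `0 < c ≤ 1` such that: (1) for all
`F_1, …, F_m` in `LM` and all `U`, for all large `N` and every unbounded set `𝓗` of heights, for all tuples `n` in `[1, N] ^ m`
but `N ^ m / (log N) ^ U` the tuple of the `F_i (n_i)` is measured; (2) if `B ≥ 1` and `B (m - c) < m`, there is `η > 0` such
that for all `F_1, …, F_m` which take each positive value at most `T` times at the primes and all `U`, for all large `N` and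
every unbounded set `𝓗` of heights, for all tuples `n` in `[1, N] ^ m` but `N ^ m / (log N) ^ U`, for ALL tuples `w` with
`1 ≤ w_i ≤ N ^ B` such that `w_i` is divisible by `F_i (p)` for all primes `p > exp (√(log N))` dividing `n_i` exactly once, and
all integers `a_i ≠ 0`, `b_i` with `|a_i|, |b_i| ≤ w_j ^ η` for some `j`, the tuple of the `|a_i w_i + b_i|` is measured.
(3) Examples: Euler's function and the sum of the divisors are in `LM`; `p - 1` takes each value at most once at the
primes, and all multiples of Carmichael's function `λ (n)` are divisible by `p - 1` for all primes `p` dividing `n`. -/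
theorem result :
    (∀ (K m d : ℕ), 1 ≤ m → ∀ g : Fin K → RatFunc ℚ, MI g → ∀ θ : ℂ,
      (θ = Real.pi ∨ ∃ q : ℚ, 0 < q ∧ q ≠ 1 ∧ θ = ((Real.log q : ℝ) : ℂ)) →
      ∃ (C : ℕ) (c : ℝ), 0 < C ∧ 0 < c ∧ c ≤ 1 ∧
        (∀ F : Fin m → ℕ → ℕ, (∀ i, LM (F i)) → ∀ U : ℕ, ∃ N₀ : ℕ, ∀ N : ℕ, N₀ ≤ N → ∀ 𝓗 : Set ℝ, ¬ BddAbove 𝓗 →
          ({n : Fin m → ℕ | (∀ i, 1 ≤ n i ∧ n i ≤ N) ∧ ¬ Measured g θ d C c 𝓗 fun i => F i (n i)}.ncard : ℝ) ≤
            (N : ℝ) ^ m / Real.log N ^ U) ∧
        (∀ B : ℝ, 1 ≤ B → B * (m - c) < m → ∃ η : ℝ, 0 < η ∧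
          ∀ (T : ℕ) (F : Fin m → ℕ → ℕ), (∀ i, FewTimes (F i) T) → ∀ U : ℕ, ∃ N₀ : ℕ, ∀ N : ℕ, N₀ ≤ N →
          ∀ 𝓗 : Set ℝ, ¬ BddAbove 𝓗 →
          ({n : Fin m → ℕ | (∀ i, 1 ≤ n i ∧ n i ≤ N) ∧ ¬ ∀ w : Fin m → ℕ, (∀ i, 1 ≤ w i ∧ (w i : ℝ) ≤ (N : ℝ) ^ B ∧
            Carries (F i) (Real.exp √(Real.log N)) (n i) (w i)) →
            ∀ a b : Fin m → ℤ, (∃ j, ∀ i, a i ≠ 0 ∧ |(a i : ℝ)| ≤ (w j : ℝ) ^ η ∧ |(b i : ℝ)| ≤ (w j : ℝ) ^ η) →
            Measured g θ d C c 𝓗 fun i => (a i * (w i : ℤ) + b i).natAbs}.ncard : ℝ) ≤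
            (N : ℝ) ^ m / Real.log N ^ U)) ∧
    (LM Nat.totient ∧ LM (fun m => ∑ d ∈ m.divisors, d)) ∧
    (FewTimes (fun p => p - 1) 1 ∧
      ∀ (y : ℝ) (m w : ℕ), ArithmeticFunction.carmichael m ∣ w → Carries (fun p => p - 1) y m w) := by
  refine ⟨fun K m d hm g hg θ hθ => ?_, ⟨lm_totient, lm_sigma⟩, fewTimes_pred, carries_carmichael⟩
  obtain ⟨C, c, K₀, hC, hc, hc1, hK₀, h⟩ := rf_count m d hm g hg θ hθ
  have hmR : (1 : ℝ) ≤ m := by exact_mod_cast hm
  refine ⟨C, c, hC, hc, hc1, fun F hF U => ?_, fun B hB hBc => ?_⟩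
  · obtain ⟨N₀, hN₀⟩ := Pool.Agent.N733.TG.keep_tuples2 hm hF hc U K₀
    refine ⟨N₀, fun N hN 𝓗 h𝓗 => ?_⟩
    have h1 := hN₀ N hN {n | ¬ Measured g θ d C c 𝓗 n} (fun X hX => by
      refine le_trans ?_ (h 𝓗 h𝓗 X hX)
      exact Nat.cast_le.2 (Set.ncard_le_ncard (fun n hn => ⟨fun v => (hn.1 v).2, hn.2⟩) (fin_nat _)))
    refine le_trans (Nat.cast_le.2 (Set.ncard_le_ncard ?_ ?_)) h1
    · rintro n ⟨h2, h3⟩
      exact ⟨h2, fun h4 => h4.2 h3⟩
    · exact (fin_nat (m := m) (T := N) fun _ => True).subset fun n hn => ⟨fun v => (hn.1 v).2, trivial⟩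
  · obtain ⟨η, hη, h1⟩ := Pool.Agent.N790.CM.keep_near hm (c := c) (B := B) (by linarith) hB hBc
    refine ⟨η, hη, fun T F hF U => ?_⟩
    obtain ⟨N₀, hN₀⟩ := h1 T F hF (2 ^ m * K₀) U
    refine ⟨N₀, fun N hN 𝓗 h𝓗 => ?_⟩
    have h2 := hN₀ N hN {q : Fin m → ℤ | ¬ Measured g θ d C c 𝓗 fun i => (q i).natAbs} (fun X hX => by
      refine le_trans (Nat.cast_le.2 (signed (fun n => ¬ Measured g θ d C c 𝓗 n) X)) ?_
      push_cast
      rw [mul_assoc]
      exact mul_le_mul_of_nonneg_left (h 𝓗 h𝓗 X hX) (by positivity))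
    refine le_trans (Nat.cast_le.2 (Set.ncard_le_ncard ?_ ?_)) h2
    · rintro n ⟨h3, h4⟩
      refine ⟨h3, fun h5 => h4 fun w hw a b hab => ?_⟩
      by_contra hcon
      exact h5 w hw a b hab hcon
    · exact (fin_nat (m := m) (T := N) fun _ => True).subset fun n hn => ⟨fun v => (hn.1 v).2, trivial⟩

end Pool.Agent.Results.MP_3cf473_nt.ArithmeticTuples
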