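import Pool.Agent.Zk98.MF
import Pool.Agent.Zk39.Tr.Rf

/-!
# The conjectural measure for the logarithms of values of rational functions at ALL tuples of large divisors, and at ALL
# tuples of multiplicative orders

Let `g_1, …, g_K` be rational functions with rational coefficients, multiplicatively independent modulo constants (for
instance `x, x + 1, …, x + K - 1`), and `θ = π` or `θ = log q`, `q ≠ 1` a positive rational number. `Measured g θ d C c 𝓗 n`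
(see `Pool/Agent/Zk39/Tr/Rf.lean`), `n` an `m`-tuple of natural numbers with the maximum `M`, says that

* `|P (l, θ)| ≥ (M H) ^ (-C)` for ALL heights `2 ≤ H ≤ exp (exp (M ^ c))`, ALL logarithms `l` of the `m K` numbers `g_a (n_v)`
  with `|Im l| ≤ H` and all nonzero integer polynomials `P` of total degree at most `d` and height at most `H`,
* and `|P (l, θ)| ≥ H ^ (-C)` for all logarithms and polynomials in this range for arbitrarily large `H` in `𝓗`.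

**Theorem.** For all `m ≥ 1`, `d`, `g` and `θ` there is a natural number `C` such that for all `0 < δ ≤ 1` there is `c > 0` with
the following property. Let `P_1, …, P_m` be chains of exponents at least `δ` (`Pool.Agent.Zk98.MD.PChain`): set valued
functions such as the divisors `≥ n ^ δ` of `n` and of all integers within a power of `log n` of `n`, the orders modulo `p` of
ALL integers `a` with `2 ≤ |a| ≤ p ^ s` for a prime `n = p` (`δ = (1 - s) / 2`), and their compositions. For all `n` in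
`[1, N] ^ m` but `O (N ^ (m - η))`: `Measured g θ d C c 𝓗 w` for EVERY tuple `w` with `w_i ∈ P_i (n_i)` for all `i`.

The constant `C` does not depend on `δ`. Proof. The hand-in `RationalFunctionValues` for short boxes
(`Pool.Agent.Zk39.Tr.short_boxes`), in boxes with different sides between `N ^ δ` and `N`, which are divided into short boxes
(`dyadic`), and the tool `Pool/Agent/Zk98/MD`, `ME`, `MF` (partial summation).
-/

set_option autoImplicit false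

namespace Pool.Agent.Results.MP_3cf473_nt.DivisorsAndOrders

open Finset
open Pool.Agent.Zk39.PV Pool.Agent.Zk39.Tr
open Pool.Agent.Zk98.MD (DBox PChain tuples_unif)

/-- the tuples in boxes with different sides for which the measure fails -/
theorem dyadic {K : ℕ} (m d : ℕ) (hm : 1 ≤ m) (g : Fin K → RatFunc ℚ) (hg : MI g) (θ : ℂ)
    (hθ : θ = Real.pi ∨ ∃ q : ℚ, 0 < q ∧ q ≠ 1 ∧ θ = ((Real.log q : ℝ) : ℂ)) :
    ∃ C : ℕ, 0 < C ∧ ∀ δ₁ : ℝ, 0 < δ₁ → δ₁ ≤ 1 → ∃ c : ℝ, 0 < c ∧ c ≤ 1 ∧ ∀ A : ℕ, ∃ K₀ : ℝ, 0 ≤ K₀ ∧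
      ∀ 𝓗 : Set ℝ, ¬ BddAbove 𝓗 → ∀ (N : ℕ) (j : Fin m → ℕ), 1 ≤ N →
        (∀ i, (N : ℝ) ^ δ₁ ≤ 2 ^ (j i + 1) ∧ 2 ^ (j i) ≤ A * N) →
        ((DBox {n | ¬ Measured g θ d C c 𝓗 n} j).ncard : ℝ) ≤ K₀ * (N : ℝ) ^ (-c) * ∏ i, (2 : ℝ) ^ (j i) := by
  classical
  have : Nonempty (Fin m) := ⟨⟨0, hm⟩⟩
  obtain ⟨C₁, hC₁, h⟩ := short_boxes m d g hg θ hθ
  have hC₁R : (1 : ℝ) ≤ C₁ := by exact_mod_cast hC₁
  have hC₁0 : (0 : ℝ) < C₁ := by linarith
  refine ⟨5 * C₁, by omega, fun δ₁ hδ₁ hδ₁1 => ?_⟩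
  obtain ⟨c, hc⟩ : ∃ c : ℝ, c = δ₁ / (2 * C₁) := ⟨_, rfl⟩
  have hc0 : 0 < c := by rw [hc]; positivity
  have hc1 : c ≤ 1 := by
    rw [hc, div_le_one (by positivity)]
    linarith
  refine ⟨c, hc0, hc1, fun A => ?_⟩
  obtain ⟨A', hA'⟩ : ∃ A' : ℝ, A' = 2 * ((A : ℝ) + 1) := ⟨_, rfl⟩
  have hA'1 : 1 ≤ A' := by
    rw [hA']
    have : (0 : ℝ) ≤ A := Nat.cast_nonneg _
    linarith
  -- the threshold for `N`
  obtain ⟨N₁, hN₁⟩ : ∃ N₁ : ℕ, (2 * (3 : ℝ) ^ C₁) ^ (1 / δ₁) ≤ N₁ := exists_nat_ge _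
  refine ⟨(N₁ : ℝ) ^ c + 2 ^ m * (2 * C₁ * A' ^ c) * (2 * 2 ^ ((1 : ℝ) / C₁)), by positivity,
    fun 𝓗 h𝓗 N j hN hj => ?_⟩
  have hN1 : (1 : ℝ) ≤ N := by exact_mod_cast hN
  have hN0 : (0 : ℝ) < N := by linarith
  have hPj : (0 : ℝ) < ∏ i, (2 : ℝ) ^ (j i) := prod_pos fun i _ => by positivity
  by_cases hNs : N < N₁
  · have h1 : ((DBox {n | ¬ Measured g θ d (5 * C₁) c 𝓗 n} j).ncard : ℝ) ≤ ∏ i, (2 : ℝ) ^ (j i) := by
      have h2 : DBox {n | ¬ Measured g θ d (5 * C₁) c 𝓗 n} j ⊆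
          ((Fintype.piFinset fun i : Fin m => Ico (2 ^ (j i)) (2 ^ (j i + 1)) : Finset (Fin m → ℕ)) :
            Set (Fin m → ℕ)) := by
        rintro w ⟨-, hw⟩
        rw [mem_coe, Fintype.mem_piFinset]
        exact fun i => mem_Ico.2 (hw i)
      have h3 := Set.ncard_le_ncard h2 (finite_toSet _)
      rw [Set.ncard_coe_finset, Fintype.card_piFinset] at h3
      have h4 : ∏ i : Fin m, (Ico (2 ^ (j i)) (2 ^ (j i + 1))).card = ∏ i : Fin m, 2 ^ (j i) := by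
        apply prod_congr rfl
        intro i _
        rw [Nat.card_Ico, pow_succ]
        omega
      rw [h4] at h3
      exact_mod_cast h3
    have h2 : 1 ≤ (N₁ : ℝ) ^ c * (N : ℝ) ^ (-c) := by
      rw [Real.rpow_neg hN0.le, ← div_eq_mul_inv, one_le_div (by positivity)]
      exact Real.rpow_le_rpow hN0.le (by exact_mod_cast hNs.le) hc0.le
    have h3 : 0 ≤ 2 ^ m * (2 * C₁ * A' ^ c) * (2 * 2 ^ ((1 : ℝ) / C₁)) * (N : ℝ) ^ (-c) := by positivity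
    calc _ ≤ 1 * ∏ i, (2 : ℝ) ^ (j i) := by rw [one_mul]; exact h1
      _ ≤ ((N₁ : ℝ) ^ c + 2 ^ m * (2 * C₁ * A' ^ c) * (2 * 2 ^ ((1 : ℝ) / C₁))) * (N : ℝ) ^ (-c) *
          ∏ i, (2 : ℝ) ^ (j i) := by
          apply mul_le_mul_of_nonneg_right _ hPj.le
          rw [add_mul]
          linarith
  have hNN : (N₁ : ℝ) ≤ N := by exact_mod_cast not_lt.1 hNs
  obtain ⟨i₁, hi₁⟩ := Finite.exists_max j
  obtain ⟨X, hX⟩ : ∃ X : ℕ, X = 2 ^ (j i₁) := ⟨_, rfl⟩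
  have hX1 : 1 ≤ X := by rw [hX]; exact Nat.one_le_two_pow
  have hX1R : (1 : ℝ) ≤ X := by exact_mod_cast hX1
  have hXA : (2 * X : ℝ) ≤ A' * N := by
    have h1 := (hj i₁).2
    rw [← hX] at h1
    have h2 : (X : ℝ) ≤ A * N := by exact_mod_cast h1
    rw [hA']
    linarith
  have hXi : ∀ i, 2 ^ (j i) ≤ X := fun i => by rw [hX]; exact Nat.pow_le_pow_right (by norm_num) (hi₁ i)
  -- the short boxes
  obtain ⟨P, hP⟩ : ∃ P : ℝ, P = ((N : ℝ) ^ δ₁ / 2) ^ ((1 : ℝ) / C₁) := ⟨_, rfl⟩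
  have hNδ : 2 * (3 : ℝ) ^ C₁ ≤ (N : ℝ) ^ δ₁ := by
    have h3 := Real.rpow_le_rpow (by positivity) (hN₁.trans hNN) hδ₁.le
    rw [← Real.rpow_mul (by positivity), one_div_mul_cancel hδ₁.ne', Real.rpow_one] at h3
    exact h3
  have hP3 : 3 ≤ P := by
    have h1 : (3 : ℝ) ^ C₁ ≤ (N : ℝ) ^ δ₁ / 2 := by linarith
    have h2 := Real.rpow_le_rpow (by positivity) h1 (by positivity : 0 ≤ (1 : ℝ) / C₁)
    rw [← Real.rpow_natCast, ← Real.rpow_mul (by norm_num), mul_one_div_cancel hC₁0.ne', Real.rpow_one] at h2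
    rw [hP]
    exact h2
  have hPC : P ^ C₁ = (N : ℝ) ^ δ₁ / 2 := by
    rw [hP, ← Real.rpow_natCast, ← Real.rpow_mul (by positivity), one_div_mul_cancel hC₁0.ne', Real.rpow_one]
  obtain ⟨W, hW⟩ : ∃ W : ℕ, W = ⌊P⌋₊ := ⟨_, rfl⟩
  have hW3 : 3 ≤ W := by rw [hW]; exact Nat.le_floor (by exact_mod_cast hP3)
  have hWP : (W : ℝ) ≤ P := by rw [hW]; exact Nat.floor_le (by linarith)
  have hPW : P < W + 1 := by rw [hW]; exact Nat.lt_floor_add_one _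
  obtain ⟨w, hw⟩ : ∃ w, w = W - 2 := ⟨_, rfl⟩
  have hw2 : w + 2 = W := by omega
  have hwR : (w : ℝ) + 2 = W := by exact_mod_cast hw2
  have hw10 : (0 : ℝ) < (w : ℝ) + 1 := by positivity
  have hcor : ∀ i, (w + 2) ^ C₁ ≤ 2 ^ (j i) := by
    intro i
    have h1 : ((w + 2 : ℕ) : ℝ) ^ C₁ ≤ (N : ℝ) ^ δ₁ / 2 := by
      rw [← hPC, hw2]
      exact pow_le_pow_left₀ (Nat.cast_nonneg _) hWP _
    have h2 := (hj i).1
    rw [pow_succ] at h2
    have h3 : (((w + 2) ^ C₁ : ℕ) : ℝ) ≤ ((2 ^ (j i) : ℕ) : ℝ) := by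
      push_cast at h1 ⊢
      linarith
    exact_mod_cast h3
  have hwj : ∀ i, w + 1 ≤ 2 ^ (j i) := by
    intro i
    have h1 := hcor i
    have h2 : w + 2 ≤ (w + 2) ^ C₁ := Nat.le_self_pow (by omega) _
    omega
  obtain ⟨R, hR⟩ : ∃ R : Fin m → ℕ, R = fun i => 2 ^ (j i) / (w + 1) + 1 := ⟨_, rfl⟩
  have hRR : ∀ i, (R i : ℝ) * (w + 1) ≤ 2 * (2 : ℝ) ^ (j i) := by
    intro i
    have h1 : ((2 ^ (j i) / (w + 1) : ℕ) : ℝ) * (w + 1) ≤ (2 : ℝ) ^ (j i) := by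
      have := Nat.div_mul_le_self (2 ^ (j i)) (w + 1)
      exact_mod_cast this
    have h2 : ((w : ℝ) + 1) ≤ (2 : ℝ) ^ (j i) := by exact_mod_cast hwj i
    rw [hR]
    push_cast
    nlinarith
  obtain ⟨Z, hZ⟩ : ∃ Z : ℝ, Z = ((2 * X : ℕ) : ℝ) ^ c := ⟨_, rfl⟩
  have hZ1 : 1 ≤ Z := by
    rw [hZ]
    apply Real.one_le_rpow _ hc0.le
    push_cast
    linarith
  -- the exceptional sets in the boxes
  obtain ⟨Exc, hExc⟩ : ∃ Exc : (Fin m → ℕ) → Set (Fin m → ℕ), Exc = fun i =>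
    {n ∈ Box (fun v => 2 ^ (j v) + i v * (w + 1)) w | ∃ H : ℝ, 2 ≤ H ∧ H ≤ Real.exp (Real.exp Z) ∧
          Fails (vals g n) (fun _ : Fin 1 => θ) d H (1 / (((2 * X : ℕ) : ℝ) * H) ^ C₁)} ∪
    {n ∈ Box (fun v => 2 ^ (j v) + i v * (w + 1)) w | ∃ H₀ : ℝ, ∀ H ∈ 𝓗, H₀ ≤ H →
      Fails (vals g n) (fun _ : Fin 1 => θ) d H (1 / H ^ C₁)} := ⟨_, rfl⟩
  have hExcfin : ∀ i, (Exc i).Finite := fun i => by
    rw [hExc]
    exact ((box_finite _ _).subset fun n hn => hn.1).union ((box_finite _ _).subset fun n hn => hn.1)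
  obtain ⟨I, hI⟩ : ∃ I : Finset (Fin m → ℕ), I = (Fintype.piFinset (fun i : Fin m => range (R i))).filter
    (fun i => ∀ v, 2 ^ (j v) + i v * (w + 1) ≤ 2 * X) := ⟨_, rfl⟩
  have hExcc : ∀ i ∈ I, ((Exc i).ncard : ℝ) * (w + 1) ≤ 2 * C₁ * Z * (w + 1) ^ m := by
    intro i hi
    rw [hI, mem_filter] at hi
    have hcorner : ∀ v, (w + 2) ^ C₁ ≤ 2 ^ (j v) + i v * (w + 1) := fun v => (hcor v).trans (Nat.le_add_right _ _)
    obtain ⟨h1, h2⟩ := h (fun v => 2 ^ (j v) + i v * (w + 1)) w hcorner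
    have h3 := h1 (2 * X) (by omega) hi.2 _ hZ1
    have h4 := h2 𝓗 h𝓗
    have h5 : (({n ∈ Box (fun v => 2 ^ (j v) + i v * (w + 1)) w | ∃ H₀ : ℝ, ∀ H ∈ 𝓗, H₀ ≤ H →
      Fails (vals g n) (fun _ : Fin 1 => θ) d H (1 / H ^ C₁)}.ncard : ℕ) : ℝ) * (w + 1) ≤ C₁ * (w + 1) ^ m := by
      exact_mod_cast h4
    have h6 : ((Exc i).ncard : ℝ) ≤
        ({n ∈ Box (fun v => 2 ^ (j v) + i v * (w + 1)) w | ∃ H : ℝ, 2 ≤ H ∧ H ≤ Real.exp (Real.exp Z) ∧
          Fails (vals g n) (fun _ : Fin 1 => θ) d H (1 / (((2 * X : ℕ) : ℝ) * H) ^ C₁)}.ncard : ℝ) +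
        ({n ∈ Box (fun v => 2 ^ (j v) + i v * (w + 1)) w | ∃ H₀ : ℝ, ∀ H ∈ 𝓗, H₀ ≤ H →
          Fails (vals g n) (fun _ : Fin 1 => θ) d H (1 / H ^ C₁)}.ncard : ℝ) := by
      rw [hExc]
      exact_mod_cast Set.ncard_union_le _ _
    have h7 : (0 : ℝ) ≤ (w + 1 : ℝ) ^ m := by positivity
    calc ((Exc i).ncard : ℝ) * (w + 1) ≤ C₁ * Z * (w + 1) ^ m + C₁ * (w + 1) ^ m := by
          refine (mul_le_mul_of_nonneg_right h6 hw10.le).trans ?_
          rw [add_mul]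
          exact add_le_add h3 h5
      _ ≤ C₁ * Z * (w + 1) ^ m + C₁ * Z * (w + 1) ^ m := by
          have : (C₁ : ℝ) ≤ C₁ * Z := le_mul_of_one_le_right (by positivity) hZ1
          have := mul_le_mul_of_nonneg_right this h7
          linarith
      _ = _ := by ring
  have hsub : DBox {n | ¬ Measured g θ d (5 * C₁) c 𝓗 n} j ⊆
      (I.biUnion fun i => (hExcfin i).toFinset : Finset (Fin m → ℕ)) := by
    rintro n ⟨hnm, hn⟩
    rw [mem_coe, mem_biUnion]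
    have hbox : n ∈ Box (fun v => 2 ^ (j v) + (n v - 2 ^ (j v)) / (w + 1) * (w + 1)) w := by
      intro v
      have h1 := (hn v).1
      have h2 := Nat.div_add_mod (n v - 2 ^ (j v)) (w + 1)
      have h3 := Nat.mod_lt (n v - 2 ^ (j v)) (Nat.succ_pos w)
      have h4 : (n v - 2 ^ (j v)) / (w + 1) * (w + 1) = (w + 1) * ((n v - 2 ^ (j v)) / (w + 1)) := mul_comm _ _
      show 2 ^ (j v) + (n v - 2 ^ (j v)) / (w + 1) * (w + 1) ≤ n v ∧
        n v ≤ 2 ^ (j v) + (n v - 2 ^ (j v)) / (w + 1) * (w + 1) + w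
      rw [h4]
      have h5 : (n v - 2 ^ (j v)) % (w + 1) < w + 1 := h3
      omega
    have hn2X : ∀ v, n v ≤ 2 * X := by
      intro v
      have h1 := (hn v).2
      rw [pow_succ] at h1
      have h2 := hXi v
      omega
    refine ⟨fun v => (n v - 2 ^ (j v)) / (w + 1), ?_, ?_⟩
    · rw [hI, mem_filter, Fintype.mem_piFinset]
      refine ⟨fun v => ?_, fun v => ?_⟩
      · rw [mem_range, hR]
        refine Nat.lt_succ_of_le (Nat.div_le_div_right ?_)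
        have h1 := (hn v).2
        rw [pow_succ] at h1
        omega
      · exact (hbox v).1.trans (hn2X v)
    rw [Set.Finite.mem_toFinset]
    by_contra hnot
    apply hnm
    rw [hExc] at hnot
    simp only [Set.mem_union, Set.mem_sep_iff, hbox, true_and, not_or, not_exists, not_and, not_forall] at hnot
    obtain ⟨hA, hB⟩ := hnot
    -- the maximum
    have hsupX : univ.sup n ≤ 2 * X := Finset.sup_le fun v _ => hn2X v
    have hXsup : X ≤ univ.sup n := by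
      rw [hX]
      exact (hn i₁).1.trans (Finset.le_sup (mem_univ _))
    have hX3 : 3 ≤ X := by
      have h1 := hwj i₁
      rw [← hX] at h1
      have h2 := hcor i₁
      rw [← hX] at h2
      have h3 : w + 2 ≤ (w + 2) ^ C₁ := Nat.le_self_pow (by omega) _
      omega
    obtain ⟨M, hMdef⟩ : ∃ M : ℝ, M = ((univ.sup n : ℕ) : ℝ) := ⟨_, rfl⟩
    have hMX : M ≤ ((2 * X : ℕ) : ℝ) := by
      rw [hMdef]
      exact_mod_cast hsupX
    have hXM : (X : ℝ) ≤ M := by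
      rw [hMdef]
      exact_mod_cast hXsup
    have hX3R : (3 : ℝ) ≤ X := by exact_mod_cast hX3
    have hM3 : 3 ≤ M := hX3R.trans hXM
    refine ⟨fun H hH hHM hf => ?_, fun H₀ => ?_⟩
    · rw [← hMdef] at hHM hf
      refine hA H hH (hHM.trans ?_) (fails_mono _ _ _ _ ?_ hf)
      · apply Real.exp_le_exp.2
        apply Real.exp_le_exp.2
        rw [hZ]
        exact Real.rpow_le_rpow (by linarith) hMX hc0.le
      · apply one_div_le_one_div_of_le (by positivity)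
        rw [pow_mul]
        refine pow_le_pow_left₀ (by positivity) ?_ C₁
        push_cast
        have h2 : 2 * (X : ℝ) ≤ M ^ 5 := by
          have h3 : M ^ 2 ≤ M ^ 5 := pow_le_pow_right₀ (by linarith) (by norm_num)
          nlinarith
        calc 2 * (X : ℝ) * H ≤ M ^ 5 * H ^ 5 :=
              mul_le_mul h2 (le_self_pow₀ (by linarith) (by norm_num)) (by linarith) (by positivity)
          _ = (M * H) ^ 5 := (mul_pow _ _ _).symm
    · obtain ⟨H, hH, hHH, hf⟩ := hB (max H₀ 1)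
      refine ⟨H, hH, (le_max_left _ _).trans hHH, fun hf' => hf (fails_mono _ _ _ _ ?_ hf')⟩
      have hH1 : 1 ≤ H := (le_max_right _ _).trans hHH
      apply one_div_le_one_div_of_le (by positivity)
      exact pow_le_pow_right₀ hH1 (by omega)
  have hsub2 := Set.ncard_le_ncard hsub (Finset.finite_toSet _)
  have h1 : ((DBox {n | ¬ Measured g θ d (5 * C₁) c 𝓗 n} j).ncard : ℝ) ≤ ∑ i ∈ I, ((Exc i).ncard : ℝ) := by
    rw [Set.ncard_coe_finset] at hsub2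
    have h3 := hsub2.trans card_biUnion_le
    have h4 : ∀ i, (hExcfin i).toFinset.card = (Exc i).ncard := fun i => (Set.ncard_eq_toFinset_card _ (hExcfin i)).symm
    simp only [h4] at h3
    exact_mod_cast h3
  have h2 : (∑ i ∈ I, ((Exc i).ncard : ℝ)) * (w + 1) ≤ (∏ i, (R i : ℝ)) * (2 * C₁ * Z * (w + 1) ^ m) := by
    rw [sum_mul]
    refine (sum_le_card_nsmul _ _ _ hExcc).trans ?_
    rw [nsmul_eq_mul]
    apply mul_le_mul_of_nonneg_right _ (by positivity)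
    have h3 : I.card ≤ ∏ i, R i := by
      rw [hI]
      refine (card_filter_le _ _).trans ?_
      rw [Fintype.card_piFinset]
      simp
    exact_mod_cast h3
  have h3 : (∏ i, (R i : ℝ)) * (2 * C₁ * Z * (w + 1) ^ m) ≤ 2 * C₁ * Z * (2 ^ m * ∏ i, (2 : ℝ) ^ (j i)) := by
    have e1 : (∏ i, (R i : ℝ)) * (w + 1) ^ m = ∏ i : Fin m, ((R i : ℝ) * (w + 1)) := by
      rw [prod_mul_distrib, prod_const, card_univ, Fintype.card_fin]
    have e2 : (2 : ℝ) ^ m * ∏ i, (2 : ℝ) ^ (j i) = ∏ i : Fin m, (2 * (2 : ℝ) ^ (j i)) := by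
      rw [prod_mul_distrib, prod_const, card_univ, Fintype.card_fin]
    calc (∏ i, (R i : ℝ)) * (2 * C₁ * Z * (w + 1) ^ m) = 2 * C₁ * Z * ((∏ i, (R i : ℝ)) * (w + 1) ^ m) := by ring
      _ = 2 * C₁ * Z * ∏ i : Fin m, ((R i : ℝ) * (w + 1)) := by rw [e1]
      _ ≤ 2 * C₁ * Z * ∏ i : Fin m, (2 * (2 : ℝ) ^ (j i)) := by
          apply mul_le_mul_of_nonneg_left _ (by positivity)
          exact prod_le_prod (fun i _ => by positivity) fun i _ => hRR i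
      _ = _ := by rw [e2]
  have hw1 : (1 : ℝ) ≤ w := by exact_mod_cast (by omega : 1 ≤ w)
  have h4 : P / 2 ≤ (w : ℝ) + 1 := by linarith
  have hS0 : (0 : ℝ) ≤ ∑ i ∈ I, ((Exc i).ncard : ℝ) := sum_nonneg fun i _ => Nat.cast_nonneg _
  have h5 : (∑ i ∈ I, ((Exc i).ncard : ℝ)) * (P / 2) ≤ 2 * C₁ * Z * (2 ^ m * ∏ i, (2 : ℝ) ^ (j i)) := by
    refine le_trans ?_ (h2.trans h3)
    exact mul_le_mul_of_nonneg_left h4 hS0
  have hP0 : 0 < P / 2 := by linarith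
  rw [← le_div_iff₀ hP0] at h5
  have hZN : Z ≤ A' ^ c * (N : ℝ) ^ c := by
    rw [hZ, ← Real.mul_rpow (by linarith) hN0.le]
    apply Real.rpow_le_rpow (Nat.cast_nonneg _) _ hc0.le
    push_cast
    exact hXA
  have hPN : (N : ℝ) ^ c / P = 2 ^ ((1 : ℝ) / C₁) * (N : ℝ) ^ (-c) := by
    have e1 : P = (N : ℝ) ^ (2 * c) / 2 ^ ((1 : ℝ) / C₁) := by
      rw [hP, Real.div_rpow (by positivity) (by norm_num), ← Real.rpow_mul hN0.le]
      congr 2
      rw [hc]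
      field_simp
    rw [e1, div_div_eq_mul_div, mul_comm, mul_div_assoc, ← Real.rpow_sub hN0]
    congr 2
    ring
  calc ((DBox {n | ¬ Measured g θ d (5 * C₁) c 𝓗 n} j).ncard : ℝ)
      ≤ 2 * C₁ * Z * (2 ^ m * ∏ i, (2 : ℝ) ^ (j i)) / (P / 2) := h1.trans h5
    _ ≤ 2 * C₁ * (A' ^ c * (N : ℝ) ^ c) * (2 ^ m * ∏ i, (2 : ℝ) ^ (j i)) / (P / 2) := by
        apply div_le_div_of_nonneg_right _ hP0.le
        apply mul_le_mul_of_nonneg_right _ (by positivity)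
        exact mul_le_mul_of_nonneg_left hZN (by positivity)
    _ = 2 ^ m * (2 * C₁ * A' ^ c) * 2 * ((N : ℝ) ^ c / P) * ∏ i, (2 : ℝ) ^ (j i) := by
        field_simp
    _ = 2 ^ m * (2 * C₁ * A' ^ c) * (2 * 2 ^ ((1 : ℝ) / C₁)) * (N : ℝ) ^ (-c) * ∏ i, (2 : ℝ) ^ (j i) := by
        rw [hPN]
        ring
    _ ≤ _ := by
        apply mul_le_mul_of_nonneg_right _ hPj.le
        apply mul_le_mul_of_nonneg_right _ (by positivity)
        have : 0 ≤ (N₁ : ℝ) ^ c := by positivity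
        linarith

/-- **Theorem.** Let `g_1, …, g_K` in `ℚ(x)` be multiplicatively independent modulo constants, `θ = π` or `θ = log q` with
`q ≠ 1` a positive rational number, `m ≥ 1` and `d` natural numbers. There is `C ≥ 1`, and for every `0 < δ ≤ 1` there is
`0 < c ≤ 1` such that for all chains `P_1, …, P_m` of exponents at least `δ` there are `K₀` and `η > 0` with: for every
unbounded set `𝓗` of heights and all `N`, for all `n ∈ [1, N] ^ m` but `K₀ N ^ (m - η)` EVERY tuple `w` with `w_i ∈ P_i (n_i)`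
for all `i` is measured. -/
theorem result (K m d : ℕ) (hm : 1 ≤ m) (g : Fin K → RatFunc ℚ) (hg : MI g) (θ : ℂ)
    (hθ : θ = Real.pi ∨ ∃ q : ℚ, 0 < q ∧ q ≠ 1 ∧ θ = ((Real.log q : ℝ) : ℂ)) :
    ∃ C : ℕ, 0 < C ∧ ∀ δ : ℝ, 0 < δ → δ ≤ 1 → ∃ c : ℝ, 0 < c ∧ c ≤ 1 ∧
      ∀ (δ' : Fin m → ℝ), (∀ i, δ ≤ δ' i) → ∀ P : Fin m → ℕ → Set ℕ, (∀ i, PChain (δ' i) (P i)) →
        ∃ K₀ η : ℝ, 0 < η ∧ ∀ 𝓗 : Set ℝ, ¬ BddAbove 𝓗 → ∀ N : ℕ, 1 ≤ N →
          ({n : Fin m → ℕ | (∀ i, 1 ≤ n i ∧ n i ≤ N) ∧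
            ¬ ∀ w : Fin m → ℕ, (∀ i, w i ∈ P i (n i)) → Measured g θ d C c 𝓗 w}.ncard : ℝ) ≤
            K₀ * (N : ℝ) ^ ((m : ℝ) - η) := by
  obtain ⟨C, hC, h⟩ := dyadic m d hm g hg θ hθ
  refine ⟨C, hC, fun δ hδ hδ1 => ?_⟩
  obtain ⟨c, hc, hc1, h1⟩ := h (δ / 2) (by linarith) (by linarith)
  refine ⟨c, hc, hc1, fun δ' hδ' P hP => ?_⟩
  obtain ⟨K₀, η, hη, h2⟩ := tuples_unif hm (δ := δ) (F := P) (fun i => ((hP i).spread).mono hδ (hδ' i))
    {W | ∃ 𝓗 : Set ℝ, ¬ BddAbove 𝓗 ∧ W = {n | ¬ Measured g θ d C c 𝓗 n}} (δ₁ := δ / 2) (η₁ := c) (by linarith)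
    (by linarith) hc (fun A => by
      obtain ⟨K₀, hK₀, h3⟩ := h1 A
      refine ⟨K₀, hK₀, fun W hW N j hN hj => ?_⟩
      obtain ⟨𝓗, h𝓗, rfl⟩ := hW
      exact h3 𝓗 h𝓗 N j hN hj)
  refine ⟨K₀, η, hη, fun 𝓗 h𝓗 N hN => ?_⟩
  refine le_trans ?_ (h2 {n | ¬ Measured g θ d C c 𝓗 n} ⟨𝓗, h𝓗, rfl⟩ N hN)
  have hfin : {n : Fin m → ℕ | (∀ i, 1 ≤ n i ∧ n i ≤ N) ∧ ∃ w ∈ {n | ¬ Measured g θ d C c 𝓗 n},
      ∀ i, w i ∈ P i (n i)}.Finite := by
    apply (Set.Finite.pi' fun _ : Fin m => Set.finite_Icc 1 N).subset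
    rintro n ⟨hn, _⟩
    exact fun i => hn i
  rw [Nat.cast_le]
  apply Set.ncard_le_ncard _ hfin
  rintro n ⟨hn, hbad⟩
  push Not at hbad
  obtain ⟨w, hw, hwm⟩ := hbad
  exact ⟨hn, w, hwm, hw⟩

end Pool.Agent.Results.MP_3cf473_nt.DivisorsAndOrders
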