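import Pool.Agent.Zk39.Tr.Rf
import Pool.Agent.R482.ST.Radial
import Pool.Agent.R482.ST.Vec
import Pool.Agent.N671.DA.Tup

/-!
# The conjectural measure for the logarithms of values of rational functions at integers near almost every vector

Let `g_1, …, g_K` be rational functions with rational coefficients, multiplicatively independent modulo constants (for
instance `x, x + 1, …, x + K - 1`), and `θ = π` or `θ = log q`, `q ≠ 1` a positive rational number. `Measured g θ d C c 𝓗 n`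
(see `Pool/Agent/Zk39/Tr/Rf.lean`), `n` an `m`-tuple of natural numbers with the maximum `M`, says that

* `|P (l, θ)| ≥ (M H) ^ (-C)` for ALL heights `2 ≤ H ≤ exp (exp (M ^ c))`, ALL logarithms `l` of the `m K` numbers `g_a (n_v)`
  with `|Im l| ≤ H` and all nonzero integer polynomials `P` of total degree at most `d` and height at most `H`,
* and `|P (l, θ)| ≥ H ^ (-C)` for all logarithms and polynomials in this range for arbitrarily large `H` in `𝓗`.

**Theorem.** For all `m ≥ 1`, `d`, `g` and `θ` there are a natural number `C` and `0 < c ≤ 1` such that for every unbounded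
set `𝓗` of heights:

1. (points of sequences on almost every ray) let `f_0, f_1, …` be positive functions on `(a, ∞)`, `a ≥ 0`, `f_k (x) / x`
   nondecreasing, of exponent of convergence at most `τ`, and `κ < 1`. For all `u` in `ℝ^m`, `‖u‖ > a`, outside a set of
   dimension at most `(m - c + τ) / (1 - κ)`, a null set if `m κ + τ < c`, for all `b`, all large `k` and ALL integer vectors
   `z` with `‖z - (x / ‖u‖) u‖ ≤ b x ^ κ`, `x = f_k (‖u‖)`, the tuple of the `|z_i|` is measured;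
2. (good approximations) let `β` be in `ℝ^l` and `τ > 0`. For all systems `α` of `l` linear forms in `m` variables outside a
   set of dimension at most `(m - 1) l + (l + m - c) / (1 + τ)`, a null set if `l τ > m - c`, and all `b`, for ALL integer
   vectors `q` of large norm with `‖α_j (q) - β_j‖ ≤ b |q| ^ (-τ)` (distances to the nearest integers) the tuple of the `|q_i|`
   is measured;
3. the functions `v_k x`, `x ^ (v_k)` and the iterates of a map `h` with `h (x) > x`, `h (x) / x` nondecreasing are examples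
   for 1.

In 1 there are no exceptions in almost all windows, and they are extremely sparse if `f_k (x) = x ^ k` or `2 ^ k x`; by
Minkowski's theorem there are infinitely many `q` as in 2 for every `α` if `β = 0` and `τ ≤ m / l`, so that almost every `α` has
infinitely many approximations as in 2 at the exponents between `(m - c) / l` and `m / l`, and ALL of them are measured.

Proof. The count of the hand-in `RationalFunctionValues` in short boxes (its exceptions in boxes of side `X` are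
`O (X ^ (m - c))`), and the starting theorems on thin sets near starshaped maps (`Pool/Agent/R482/ST`, helper482) and systems
of linear forms (`Pool/Agent/N671/DA`, helper671).
-/

set_option autoImplicit false

namespace Pool.Agent.Results.MP_3cf473_nt.NearAlmostEveryVector

open Pool.Agent.Zk39.PV Pool.Agent.Zk39.Tr MeasureTheory
open Pool.Agent.N671.DA (Near)

/-- the functions `f n` are positive on `(a, ∞)`, `a ≥ 0`, and `f n x / x` is nondecreasing there -/
def Starshaped (a : ℝ) (f : ℕ → ℝ → ℝ) : Prop :=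
  0 ≤ a ∧ ∀ n : ℕ, ∀ x y : ℝ, a < x → x ≤ y → 0 < f n x ∧ f n x / x ≤ f n y / y

/-- for each `x > a` the exponent of convergence of the sequence `f n x` is at most `τ` -/
def ExpLe (a : ℝ) (f : ℕ → ℝ → ℝ) (τ : ℝ) : Prop :=
  ∀ x : ℝ, a < x → ∀ t : ℝ, τ < t → Summable (fun n : ℕ => (f n x) ^ (-t))

lemma null_of_dim {ι : Type} [Fintype ι] {E : Set (ι → ℝ)} {D : ℝ} (hE : dimH E ≤ ENNReal.ofReal D)
    (hD : D < Fintype.card ι) (hpos : 0 < Fintype.card ι) : volume E = 0 := by
  have h1 : (0 : ℝ) < Fintype.card ι := by exact_mod_cast hpos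
  have h2 : dimH E < ((Fintype.card ι : ℕ) : ENNReal) := by
    refine hE.trans_lt ?_
    have h3 : ((Fintype.card ι : ℕ) : ENNReal) = ENNReal.ofReal (Fintype.card ι : ℝ) := by
      rw [ENNReal.ofReal_natCast]
    rw [h3]
    exact (ENNReal.ofReal_lt_ofReal_iff h1).2 hD
  have h4 : (volume : Measure (ι → ℝ)) = Measure.hausdorffMeasure (Fintype.card ι : ℝ) :=
    (hausdorffMeasure_pi_real (ι := ι)).symm
  rw [h4]
  have h5 := hausdorffMeasure_of_dimH_lt (s := E) (d := (Fintype.card ι : NNReal)) (by simpa using h2)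
  simpa using h5

/-- the count of the exceptional integer vectors -/
lemma thin {K m d : ℕ} (hm : 1 ≤ m) {g : Fin K → RatFunc ℚ} {θ : ℂ} {C : ℕ} {c K₀ : ℝ} (hc1 : c ≤ 1) {𝓗 : Set ℝ}
    (h : ∀ X : ℕ, 1 ≤ X → ({n : Fin m → ℕ | (∀ v, n v ≤ X) ∧ ¬ Measured g θ d C c 𝓗 n}.ncard : ℝ) ≤
      K₀ * (X : ℝ) ^ ((m : ℝ) - c)) :
    Pool.Agent.N671.DA.Thin {q : Fin m → ℤ | ¬ Measured g θ d C c 𝓗 (fun i => (q i).natAbs)} ((m : ℝ) - c) := by
  intro ε hε
  obtain ⟨C', hC'⟩ := Pool.Agent.N671.DA.thin_natAbs hm {n | ¬ Measured g θ d C c 𝓗 n} (c₀ := c) (C₀ := K₀) hc1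
    (fun T hT => by
      refine le_trans ?_ (h T hT)
      have hfin : {n : Fin m → ℕ | (∀ v, n v ≤ T) ∧ ¬ Measured g θ d C c 𝓗 n}.Finite := by
        refine ((Finset.finite_toSet (Fintype.piFinset (fun _ : Fin m => Finset.range (T + 1))))).subset fun n hn => ?_
        rw [Finset.mem_coe, Fintype.mem_piFinset]
        exact fun i => Finset.mem_range.2 (Nat.lt_succ_of_le (hn.1 i))
      exact Nat.cast_le.2 (Set.ncard_le_ncard (fun n hn => ⟨fun v => (hn.1 v).2, hn.2⟩) hfin)) ε hε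
  refine ⟨C', fun X hX => le_trans ?_ (hC' X hX)⟩
  refine Nat.cast_le.2 (Set.ncard_le_ncard ?_ ((Pool.Agent.N671.DA.box_fin X).subset fun q hq => hq.2))
  rintro q ⟨h1, h2⟩
  refine ⟨fun h3 => ?_, h2⟩
  exact h3.2 h1

/-- **Theorem.** Let `g_1, …, g_K` in `ℚ(x)` be multiplicatively independent modulo constants, `θ = π` or `θ = log q` with
`q ≠ 1` a positive rational number, `m ≥ 1` and `d` natural numbers. There are `C ≥ 1` and `0 < c ≤ 1` such that for every
unbounded set `𝓗` of heights: (1) for starshaped `f_k` on `(a, ∞)` of exponent of convergence at most `τ` and `κ < 1`, for all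
`u` in `ℝ^m`, `‖u‖ > a`, outside a set of dimension at most `(m - c + τ) / (1 - κ)`, null if `m κ + τ < c`, for all `b`, all
large `k` and ALL integer vectors `z` with `|z_i - (x / ‖u‖) u_i| ≤ b x ^ κ` for all `i`, `x = f_k (‖u‖)`, the tuple of the
`|z_i|` is measured; (2) for `β` in `ℝ^l`, `l ≥ 1`, `τ > 0` and all systems `α` of `l` linear forms in `m` variables outside a
set of dimension at most `(m - 1) l + (l + m - c) / (1 + τ)`, null if `l τ > m - c`, for all `b` and ALL integer vectors `q` of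
large norm with `‖α_j (q) - β_j‖ ≤ b |q| ^ (-τ)` for all `j` the tuple of the `|q_i|` is measured; (3) examples of starshaped
sequences: `v_k x`, `x ^ (v_k)`, the iterates of a map. -/
theorem result :
    (∀ (K m d : ℕ), 1 ≤ m → ∀ g : Fin K → RatFunc ℚ, MI g → ∀ θ : ℂ,
      (θ = Real.pi ∨ ∃ q : ℚ, 0 < q ∧ q ≠ 1 ∧ θ = ((Real.log q : ℝ) : ℂ)) →
      ∃ (C : ℕ) (c : ℝ), 0 < C ∧ 0 < c ∧ c ≤ 1 ∧ ∀ 𝓗 : Set ℝ, ¬ BddAbove 𝓗 →
        (∀ (f : ℕ → ℝ → ℝ) (a τ κ : ℝ), Starshaped a f → 0 ≤ τ → ExpLe a f τ → κ < 1 →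
          ∃ E : Set (Fin m → ℝ), dimH E ≤ ENNReal.ofReal (((m : ℝ) - c + τ) / (1 - κ)) ∧
            (m * κ + τ < c → volume E = 0) ∧
            ∀ u : Fin m → ℝ, a < ‖u‖ → u ∉ E → ∀ b : ℝ, ∃ k₀ : ℕ, ∀ k : ℕ, k₀ ≤ k → ∀ z : Fin m → ℤ,
              (∀ i, |(z i : ℝ) - f k ‖u‖ / ‖u‖ * u i| ≤ b * (f k ‖u‖) ^ κ) →
                Measured g θ d C c 𝓗 fun i => (z i).natAbs) ∧
        (∀ (l : ℕ) (β : Fin l → ℝ) (τ : ℝ), 1 ≤ l → 0 < τ →
          ∃ E : Set (Fin m × Fin l → ℝ), dimH E ≤ ENNReal.ofReal (((m : ℝ) - 1) * l + (l + ((m : ℝ) - c)) / (1 + τ)) ∧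
            ((m : ℝ) - c < l * τ → volume E = 0) ∧
            ∀ α, α ∉ E → ∀ b : ℝ, ∃ Q : ℝ, ∀ q : Fin m → ℤ, Q ≤ ‖q‖ → Near α β q (b * ‖q‖ ^ (-τ)) →
              Measured g θ d C c 𝓗 fun i => (q i).natAbs)) ∧
    (∀ (v : ℕ → ℝ) (τ : ℝ), (∀ n, 0 < v n) → (∀ t : ℝ, τ < t → Summable (fun n : ℕ => (v n) ^ (-t))) →
      Starshaped 0 (fun n x => v n * x) ∧ ExpLe 0 (fun n x => v n * x) τ) ∧
    (∀ v : ℕ → ℝ, (∀ n, 1 ≤ v n) → (∀ t : ℝ, 0 < t → Summable fun n : ℕ => Real.exp (-(t * v n))) →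
      Starshaped 1 (fun n x => x ^ (v n)) ∧ ExpLe 1 (fun n x => x ^ (v n)) 0) ∧
    (∀ (a : ℝ) (h : ℝ → ℝ), 0 ≤ a → (∀ x y : ℝ, a < x → x ≤ y → h x / x ≤ h y / y) → (∀ x : ℝ, a < x → x < h x) →
      Starshaped a (fun n x => h^[n] x) ∧ ExpLe a (fun n x => h^[n] x) 0) := by
  refine ⟨fun K m d hm g hg θ hθ => ?_, Pool.Agent.R482.ST.ex_mul, Pool.Agent.R482.ST.ex_pow,
    Pool.Agent.R482.ST.ex_orbit⟩
  obtain ⟨C, c, K₀, hC, hc, hc1, hK₀, h⟩ := rf_count m d hm g hg θ hθ
  have hmR : (1 : ℝ) ≤ m := by exact_mod_cast hm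
  refine ⟨C, c, hC, hc, hc1, fun 𝓗 h𝓗 => ⟨fun f a τ κ hf hτ hv hκ => ?_, fun l β τ hl hτ => ?_⟩⟩
  · have hthin := thin hm hc1 (h 𝓗 h𝓗)
    haveI : Nonempty (Fin m) := ⟨⟨0, hm⟩⟩
    have hnorm : ∀ (v : Fin m → ℤ) (X : ℝ), ‖(fun i => (v i : ℝ) : Fin m → ℝ)‖ ≤ X ↔ ∀ i, |(v i : ℝ)| ≤ X := by
      intro v X
      rw [pi_norm_le_iff_of_nonempty]
      rfl
    obtain ⟨E, hE, h1⟩ := Pool.Agent.R482.ST.radial_windows (W := Fin m → ℝ)
      {q : Fin m → ℤ | ¬ Measured g θ d C c 𝓗 (fun i => (q i).natAbs)} (fun v i => (v i : ℝ)) hf.1 hf.2 hv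
      (s := (m : ℝ) - c) (by linarith) hτ hκ
      (fun ε hε => by
        obtain ⟨C', hC'⟩ := hthin ε hε
        refine ⟨C', fun X hX => ?_⟩
        simp only [hnorm]
        exact ⟨(Pool.Agent.N671.DA.box_fin X).subset fun v hv => hv.2, hC' X hX⟩)
    refine ⟨E, hE, fun hlt => null_of_dim hE ?_ (by rw [Fintype.card_fin]; exact hm), fun u hu huE b => ?_⟩
    · rw [Fintype.card_fin, div_lt_iff₀ (by linarith)]
      nlinarith
    · obtain ⟨k₀, h2⟩ := h1 u hu huE b
      refine ⟨k₀, fun k hk z hz => ?_⟩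
      by_contra hcon
      refine absurd (h2 k hk z hcon) (not_lt.2 ?_)
      rw [pi_norm_le_iff_of_nonempty]
      exact hz
  · obtain ⟨E, hE, h1⟩ := Pool.Agent.N671.DA.approx_vectors hm _ (s := (m : ℝ) - c) (by linarith)
      (thin hm hc1 (h 𝓗 h𝓗)) β hτ
    have hlR : (1 : ℝ) ≤ l := by exact_mod_cast hl
    refine ⟨E, hE, fun hlt => null_of_dim hE ?_ ?_, fun α hα b => ?_⟩
    · rw [Fintype.card_prod, Fintype.card_fin, Fintype.card_fin]
      push_cast
      have h2 : (l + ((m : ℝ) - c)) / (1 + τ) < l := by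
        rw [div_lt_iff₀ (by linarith)]
        nlinarith
      linarith
    · rw [Fintype.card_prod, Fintype.card_fin, Fintype.card_fin]
      exact Nat.mul_pos hm hl
    · obtain ⟨Q, hQ⟩ := h1 α hα b
      refine ⟨Q, fun q hq hn => ?_⟩
      by_contra hcon
      exact hQ q hq hn hcon

end Pool.Agent.Results.MP_3cf473_nt.NearAlmostEveryVector
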