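import Mathlib
import Pool.Agent.Zk39.PV.Fin

/-!
# Algebraic independence measures for the logarithms of the values of rational functions in short boxes

Let `g_1, …, g_K` be rational functions with rational coefficients, multiplicatively independent modulo constants, for
example `X, X + 1, …, X + K - 1`, and let `θ` be `π` or the logarithm of a positive rational number `≠ 1`. There is a
constant `C`, depending only on the `g_a`, `θ`, the number `m` of the variables and the degree `d`, such that the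
following holds for ALL boxes of `m`-tuples `n` with `N_v ≤ n_v ≤ N_v + w`, `(w + 2) ^ C ≤ N_v`:

* the bound `|P| ≥ (M H) ^ (-C)`, `M ≥ N_v`, holds for the `m K` logarithms of the numbers `g_a (n_v)` together with `θ`,
  for all nonzero integer polynomials `P` of degree at most `d` and height at most `H` and all `2 ≤ H ≤ exp (exp X)`, for
  all but `C X (w + 1) ^ (m - 1)` of the tuples in the box;
* the bound `|P| ≥ H ^ (-C)` of the conjecture holds for arbitrarily large heights `H` (in any given unbounded set) for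
  all but `C (w + 1) ^ (m - 1)` of the tuples in the box.

For `m = 1` the number of the exceptions in the interval is bounded, see `consecutive`: in every interval
`[N, N + N ^ (1 / C) - 2]` there are at most `C` integers `n` such that `π, log n, log (n + 1), …, log (n + k - 1)`
satisfy a nontrivial algebraic relation of degree at most `d` with rational coefficients.

The theorem is a special case of `Pool.Agent.Zk39.PV.main`, which is relative to several given numbers with a measure of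
algebraic independence, and contains a version relative to arbitrary numbers.
-/

set_option autoImplicit false

namespace Pool.Agent.Results.MP_3cf473_nt.RationalFunctionValues

open Pool.Agent.Zk39.PV

theorem exists_meas (d : ℕ) {θ : ℂ} (hθ : θ = Real.pi ∨ ∃ q : ℚ, 0 < q ∧ q ≠ 1 ∧ θ = ((Real.log q : ℝ) : ℂ)) :
    ∃ E, Meas (fun _ : Fin 1 => θ) d E := by
  rcases hθ with h | ⟨q, hq, hq1, h⟩
  · rw [h]; exact meas_one Pool.Agent.TH456.TM.measT_pi d
  · rw [h]; exact meas_one (Pool.Agent.TH456.TM.measT_real_log q hq hq1) d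

/-- **Theorem.** -/
theorem result {K : ℕ} (m d : ℕ) (g : Fin K → RatFunc ℚ) (hg : MI g) (θ : ℂ)
    (hθ : θ = Real.pi ∨ ∃ q : ℚ, 0 < q ∧ q ≠ 1 ∧ θ = ((Real.log q : ℝ) : ℂ)) :
    ∃ C : ℕ, 0 < C ∧ ∀ (N : Fin m → ℕ) (w : ℕ), (∀ v, (w + 2) ^ C ≤ N v) →
      -- a range of heights
      (∀ M : ℕ, 2 ≤ M → (∀ v, N v ≤ M) → ∀ X : ℝ, 1 ≤ X →
        ({n ∈ Box N w | ∃ H : ℝ, 2 ≤ H ∧ H ≤ Real.exp (Real.exp X) ∧
          Fails (vals g n) (fun _ : Fin 1 => θ) d H (1 / (M * H) ^ C)}.ncard : ℝ) * (w + 1) ≤ C * X * (w + 1) ^ m) ∧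
      -- arbitrarily large heights
      (∀ 𝓗 : Set ℝ, ¬ BddAbove 𝓗 →
        {n ∈ Box N w | ∃ H₀ : ℝ, ∀ H ∈ 𝓗, H₀ ≤ H → Fails (vals g n) (fun _ : Fin 1 => θ) d H (1 / H ^ C)}.ncard *
          (w + 1) ≤ C * (w + 1) ^ m) := by
  obtain ⟨E, hE⟩ := exists_meas d hθ
  obtain ⟨C, hC, h⟩ := main m 1 d E g hg
  obtain ⟨Θ, hΘ⟩ := exists_nat_ge ‖θ‖
  have hmono : ∀ (y : Fin m × Fin K → ℝ) (H : ℝ) (η η' : ℝ), η' ≤ η → Fails y (fun _ : Fin 1 => θ) d H η' →
      Fails y (fun _ : Fin 1 => θ) d H η := by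
    rintro y H η η' hη ⟨l, h1, h2, h3⟩
    exact ⟨l, h1, h2, fun hb => h3 fun P hP0 hPd hPH => hη.trans (hb P hP0 hPd hPH)⟩
  refine ⟨C * (Θ + 2), by positivity, fun N w hN => ?_⟩
  have hCC : C ≤ C * (Θ + 2) := Nat.le_mul_of_pos_right _ (by omega)
  obtain ⟨-, h2, h3⟩ := h N w (fun _ => θ) fun v => (Nat.pow_le_pow_right (by omega) hCC).trans (hN v)
  have hCR : (C : ℝ) ≤ ((C * (Θ + 2) : ℕ) : ℝ) := by exact_mod_cast hCC
  refine ⟨fun M hM hNM X hX => ?_, fun 𝓗 h𝓗 => ?_⟩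
  · have h4 := h2 hE (M ^ (Θ + 1)) (hM.trans (Nat.le_self_pow (by omega) _))
      (fun v => (hNM v).trans (Nat.le_self_pow (by omega) _)) (fun _ => by
        refine hΘ.trans ?_
        have h5 : Θ < M ^ Θ := Nat.lt_pow_self (by omega)
        have h6 : M ^ Θ ≤ M ^ (Θ + 1) := Nat.pow_le_pow_right (by omega) (by omega)
        exact_mod_cast h5.le.trans h6) X hX
    have hw : (0 : ℝ) < (w : ℝ) + 1 := by positivity
    have hfin : (Box N w).Finite := box_finite _ _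
    have h7 : {n ∈ Box N w | ∃ H : ℝ, 2 ≤ H ∧ H ≤ Real.exp (Real.exp X) ∧
          Fails (vals g n) (fun _ : Fin 1 => θ) d H (1 / (M * H) ^ (C * (Θ + 2)))}.ncard ≤
        {n ∈ Box N w | ∃ H : ℝ, 2 ≤ H ∧ H ≤ Real.exp (Real.exp X) ∧
          Fails (vals g n) (fun _ : Fin 1 => θ) d H (1 / (((M ^ (Θ + 1) : ℕ) : ℝ) * H) ^ C)}.ncard := by
      refine Set.ncard_le_ncard ?_ (hfin.subset fun n hn => hn.1)
      rintro n ⟨hn, H, hH, hHX, hn3⟩
      refine ⟨hn, H, hH, hHX, hmono _ _ _ _ ?_ hn3⟩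
      have hM1 : (1 : ℝ) ≤ M := by exact_mod_cast (show 1 ≤ M by omega)
      apply one_div_le_one_div_of_le (by positivity)
      have e1 : ((M : ℝ) * H) ^ (C * (Θ + 2)) = (((M : ℝ) * H) ^ (Θ + 2)) ^ C := by
        rw [← pow_mul, mul_comm (Θ + 2) C]
      rw [e1]
      refine pow_le_pow_left₀ (by positivity) ?_ C
      push_cast
      calc (M : ℝ) ^ (Θ + 1) * H ≤ (M : ℝ) ^ (Θ + 2) * H ^ (Θ + 2) := by
            refine mul_le_mul (pow_le_pow_right₀ hM1 (by omega)) (le_self_pow₀ (by linarith) (by omega)) (by linarith)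
              (by positivity)
        _ = ((M : ℝ) * H) ^ (Θ + 2) := (mul_pow _ _ _).symm
    refine (mul_le_mul_of_nonneg_right (Nat.cast_le.2 h7) hw.le).trans (h4.trans ?_)
    exact mul_le_mul_of_nonneg_right (mul_le_mul_of_nonneg_right hCR (by linarith)) (by positivity)
  · refine le_trans (Nat.mul_le_mul_right _ ?_) ((h3 hE 𝓗 h𝓗).trans (Nat.mul_le_mul_right _ hCC))
    refine Set.ncard_le_ncard ?_ ((box_finite _ _).subset fun n hn => hn.1)
    rintro n ⟨hn, H₀, hn3⟩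
    refine ⟨hn, max H₀ 1, fun H hH hHH => hmono _ _ _ _ ?_ (hn3 H hH ((le_max_left _ _).trans hHH))⟩
    have hH1 : 1 ≤ H := (le_max_right _ _).trans hHH
    apply one_div_le_one_div_of_le (by positivity)
    exact pow_le_pow_right₀ hH1 hCC

/-- the numbers `θ, log n, log (n + 1), …, log (n + k - 1)` -/
noncomputable def consec (θ : ℂ) (k n : ℕ) : Fin (k + 1) → ℂ :=
  Fin.cons θ fun i => ((Real.log ((n : ℝ) + (i : ℕ)) : ℝ) : ℂ)

/-- the reindexing -/
def eqv (k : ℕ) : Fin (k + 1) ≃ (Fin 1 × Fin k) ⊕ Fin 1 where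
  toFun i := Fin.cases (Sum.inr 0) (fun j => Sum.inl (0, j)) i
  invFun x := x.elim (fun p => p.2.succ) fun _ => 0
  left_inv i := by refine Fin.cases ?_ (fun j => ?_) i <;> rfl
  right_inv x := by
    rcases x with ⟨a, j⟩ | a
    · have : a = 0 := Subsingleton.elim _ _
      subst this
      rfl
    · have : a = 0 := Subsingleton.elim _ _
      subst this
      rfl

theorem fails_of {θ : ℂ} {k n d : ℕ} (hn : 0 < n) {H η : ℝ} (hH : 0 ≤ H) (h : ¬ Bound (consec θ k n) d H η) :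
    Fails (vals (shifts k) (fun _ : Fin 1 => n)) (fun _ : Fin 1 => θ) d H η := by
  refine ⟨fun p => ((Real.log ((n : ℝ) + (p.2 : ℕ)) : ℝ) : ℂ), fun p => ?_, fun p => ?_, fun hb => h ?_⟩
  · have h0 : (0 : ℝ) < (n : ℝ) + (p.2 : ℕ) := by
      have : (0 : ℝ) < n := by exact_mod_cast hn
      positivity
    rw [← Complex.ofReal_exp, Real.exp_log h0, vals, rv, shifts, RatFunc.eval_algebraMap]
    simp
  · rw [Complex.ofReal_im, abs_zero]
    exact hH
  · have h1 := hb.reindex (eqv k)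
    have h2 : (Sum.elim (fun p : Fin 1 × Fin k => ((Real.log ((n : ℝ) + (p.2 : ℕ)) : ℝ) : ℂ)) fun _ : Fin 1 => θ) ∘
        (eqv k) = consec θ k n := by
      funext i
      refine Fin.cases ?_ (fun j => ?_) i <;> rfl
    rwa [h2] at h1

/-- The special case of the consecutive integers. -/
theorem consecutive (k d : ℕ) (θ : ℂ) (hθ : θ = Real.pi ∨ ∃ q : ℚ, 0 < q ∧ q ≠ 1 ∧ θ = ((Real.log q : ℝ) : ℂ)) :
      ∃ C : ℕ, 0 < C ∧ ∀ N w : ℕ, (w + 2) ^ C ≤ N →
        (∀ X : ℝ, 1 ≤ X → ({n : ℕ | N ≤ n ∧ n ≤ N + w ∧ ∃ H : ℝ, 2 ≤ H ∧ H ≤ Real.exp (Real.exp X) ∧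
          ¬ Bound (consec θ k n) d H (1 / (N * H) ^ C)}.ncard : ℝ) ≤ C * X) ∧
        (∀ 𝓗 : Set ℝ, ¬ BddAbove 𝓗 → {n : ℕ | N ≤ n ∧ n ≤ N + w ∧ ∃ H₀ : ℝ, ∀ H ∈ 𝓗, H₀ ≤ H →
          ¬ Bound (consec θ k n) d H (1 / H ^ C)}.ncard ≤ C) ∧
        {n : ℕ | N ≤ n ∧ n ≤ N + w ∧ ∃ P : MvPolynomial (Fin (k + 1)) ℤ, P ≠ 0 ∧ P.totalDegree ≤ d ∧
          MvPolynomial.aeval (consec θ k n) P = 0}.ncard ≤ C := by
  obtain ⟨E, hE⟩ := exists_meas d hθ
  obtain ⟨C, hC, h⟩ := main 1 1 d E (shifts k) (shifts_MI k)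
  obtain ⟨Θ, hΘ⟩ := exists_nat_ge ‖θ‖
  refine ⟨C + Θ + 1, by omega, fun N w hN => ?_⟩
  have hN1 : (w + 2) ^ C ≤ N := (Nat.pow_le_pow_right (by omega) (by omega)).trans hN
  have hN2 : Θ ≤ N := by
    have h1 : Θ < 2 ^ Θ := Nat.lt_two_pow_self
    have h2 : 2 ^ Θ ≤ (w + 2) ^ Θ := Nat.pow_le_pow_left (by omega) _
    have h3 : (w + 2) ^ Θ ≤ (w + 2) ^ (C + Θ + 1) := Nat.pow_le_pow_right (by omega) (by omega)
    omega
  have hN3 : 2 ≤ N := by
    have h2 : w + 2 ≤ (w + 2) ^ (C + Θ + 1) := by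
      conv_lhs => rw [← pow_one (w + 2)]
      exact Nat.pow_le_pow_right (by omega) (by omega)
    omega
  obtain ⟨-, h2, h3⟩ := h (fun _ => N) w (fun _ => θ) fun _ => hN1
  have hinj : Function.Injective (fun (n : ℕ) (_ : Fin 1) => n) := fun a b hab => congrFun hab 0
  -- transfer
  have key : ∀ (A : Set ℕ) (B : Set (Fin 1 → ℕ)), (∀ n ∈ A, (fun _ : Fin 1 => n) ∈ B) → B ⊆ Box (fun _ => N) w →
      A.ncard ≤ B.ncard := by
    intro A B hAB hBb
    rw [← Set.ncard_image_of_injective A hinj]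
    refine Set.ncard_le_ncard ?_ ((box_finite _ _).subset hBb)
    rintro _ ⟨n, hn, rfl⟩
    exact hAB n hn
  have hw : (0 : ℝ) < (w : ℝ) + 1 := by positivity
  have hunb : ∀ 𝓗 : Set ℝ, ¬ BddAbove 𝓗 → {n : ℕ | N ≤ n ∧ n ≤ N + w ∧ ∃ H₀ : ℝ, ∀ H ∈ 𝓗, H₀ ≤ H →
          ¬ Bound (consec θ k n) d H (1 / H ^ (C + Θ + 1))}.ncard ≤ C := by
    intro 𝓗 h𝓗
    have h4 := h3 hE 𝓗 h𝓗
    have h5 := key {n : ℕ | N ≤ n ∧ n ≤ N + w ∧ ∃ H₀ : ℝ, ∀ H ∈ 𝓗, H₀ ≤ H →
          ¬ Bound (consec θ k n) d H (1 / H ^ (C + Θ + 1))} {n ∈ Box (fun _ => N) w | ∃ H₀ : ℝ, ∀ H ∈ 𝓗, H₀ ≤ H →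
          Fails (vals (shifts k) n) (fun _ => θ) d H (1 / H ^ C)} (by
        rintro n ⟨hn1, hn2, H₀, hn3⟩
        refine ⟨fun _ => ⟨hn1, hn2⟩, max H₀ 2, fun H hH hHH => fails_of (by omega)
          (by linarith [(le_max_right _ _).trans hHH]) fun hb => hn3 H hH ((le_max_left _ _).trans hHH) ?_⟩
        intro P hP0 hPd hPH
        refine le_trans ?_ (hb P hP0 hPd hPH)
        have hH2 : 2 ≤ H := (le_max_right _ _).trans hHH
        apply one_div_le_one_div_of_le (by positivity)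
        exact pow_le_pow_right₀ (by linarith) (by omega)) (fun n hn => hn.1)
    have h6 := (Nat.mul_le_mul_right (w + 1) h5).trans h4
    rw [pow_one] at h6
    exact Nat.le_of_mul_le_mul_right h6 (Nat.succ_pos _)
  refine ⟨fun X hX => ?_, fun 𝓗 h𝓗 => (hunb 𝓗 h𝓗).trans (by omega), ?_⟩
  · have h4 := h2 hE N hN3 (fun _ => le_rfl) (fun _ => hΘ.trans (by exact_mod_cast hN2)) X hX
    have h5 := key {n : ℕ | N ≤ n ∧ n ≤ N + w ∧ ∃ H : ℝ, 2 ≤ H ∧ H ≤ Real.exp (Real.exp X) ∧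
          ¬ Bound (consec θ k n) d H (1 / (N * H) ^ (C + Θ + 1))}
        {n ∈ Box (fun _ => N) w | ∃ H : ℝ, 2 ≤ H ∧ H ≤ Real.exp (Real.exp X) ∧
          Fails (vals (shifts k) n) (fun _ => θ) d H (1 / (N * H) ^ C)} (by
        rintro n ⟨hn1, hn2, H, hH, hHX, hn3⟩
        refine ⟨fun _ => ⟨hn1, hn2⟩, H, hH, hHX, fails_of (by omega) (by linarith) fun hb => hn3 ?_⟩
        intro P hP0 hPd hPH
        refine le_trans ?_ (hb P hP0 hPd hPH)
        have hN4 : (2 : ℝ) ≤ N := by exact_mod_cast hN3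
        apply one_div_le_one_div_of_le (by positivity)
        exact pow_le_pow_right₀ (by nlinarith) (by omega)) (fun n hn => hn.1)
    have h6 : (({n : ℕ | N ≤ n ∧ n ≤ N + w ∧ ∃ H : ℝ, 2 ≤ H ∧ H ≤ Real.exp (Real.exp X) ∧
          ¬ Bound (consec θ k n) d H (1 / (N * H) ^ (C + Θ + 1))}.ncard : ℕ) : ℝ) * (w + 1) ≤ C * X * (w + 1) ^ 1 :=
      (mul_le_mul_of_nonneg_right (by exact_mod_cast h5) hw.le).trans h4
    rw [pow_one] at h6
    refine (le_of_mul_le_mul_right h6 hw).trans ?_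
    push_cast
    nlinarith [show (0 : ℝ) ≤ Θ from Nat.cast_nonneg _]
  · refine le_trans (Set.ncard_le_ncard ?_ ?_) ((hunb Set.univ (not_bddAbove_univ)).trans (by omega))
    · rintro n ⟨hn1, hn2, P, hP0, hPd, hP⟩
      obtain ⟨B, hB⟩ := (P.support.image fun s => |((P.coeff s : ℤ) : ℝ)|).bddAbove
      refine ⟨hn1, hn2, max B 1, fun H _ hH hb => ?_⟩
      have hH1 : 1 ≤ H := (le_max_right _ _).trans hH
      have h4 := hb P hP0 hPd (fun s => by
        by_cases hs : s ∈ P.support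
        · refine le_trans ?_ ((le_max_left _ _).trans hH)
          exact hB (by rw [Finset.coe_image]; exact ⟨s, hs, rfl⟩)
        · rw [MvPolynomial.notMem_support_iff.1 hs]
          simp
          linarith)
      rw [hP, norm_zero] at h4
      have : 0 < 1 / H ^ (C + Θ + 1) := by positivity
      linarith
    · exact (Set.finite_Icc N (N + w)).subset fun n hn => ⟨hn.1, hn.2.1⟩

end Pool.Agent.Results.MP_3cf473_nt.RationalFunctionValues
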